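import Pool.Agent.helper44.NLT.Spec

set_option autoImplicit false

open Complex Metric Set Filter Topology MeasureTheory MPS
open Pool.Agent.helper98.ILF Pool.Agent.helper16.Multibrot

noncomputable section

namespace NLT

/-- the critical orbit for the parameter `1` -/
def XIB_r (n : ℕ) : ℕ → ℝ
  | 0 => 0
  | k + 1 => XIB_r n k ^ n + 1

theorem XIB_nonneg (n k : ℕ) : 0 ≤ XIB_r n k := by
  cases k with
  | zero => exact le_refl _
  | succ k =>
    induction k with
    | zero => exact add_nonneg (pow_nonneg (le_refl _) n) zero_le_one
    | succ k ih => exact add_nonneg (pow_nonneg ih n) zero_le_one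

theorem XIB_mono (n : ℕ) (hn : 2 ≤ n) : StrictMono (XIB_r n) := by
  apply strictMono_nat_of_lt_succ
  intro k
  change XIB_r n k < XIB_r n k ^ n + 1
  have h0 := XIB_nonneg n k
  rcases lt_or_ge (XIB_r n k) 1 with h | h
  · have := pow_nonneg h0 n
    linarith
  · have := le_self_pow₀ h (by omega : n ≠ 0)
    linarith

theorem XIB (h : BR.MBB_stmt) : XIB_stmt := by
  intro n hn
  have hs : ∀ (k : ℕ) (c : ℂ), xi n (k + 1) c = xi n k c ^ n + c := by
    intro k c
    unfold xi
    rw [Function.iterate_succ_apply']
  have hd : ∀ k, Differentiable ℂ (xi n k) := by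
    intro k
    induction k with
    | zero =>
      have e : xi n 0 = fun _ => (0 : ℂ) := by
        funext c
        rfl
      rw [e]
      exact differentiable_const _
    | succ k ih =>
      have e : xi n (k + 1) = fun c => xi n k c ^ n + c := by
        funext c
        exact hs k c
      rw [e]
      exact (ih.pow n).add differentiable_id
  refine ⟨hs, hd, ?_, ?_, ?_⟩
  · intro c hc k
    exact ((h n c hn).1 hc).2 k
  · intro k p c
    unfold xi
    rw [add_comm k p, Function.iterate_add_apply]
  · intro m p c δ hp hδ hall
    have hr : ∀ k, xi n k 1 = (XIB_r n k : ℂ) := by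
      intro k
      induction k with
      | zero =>
        have e : XIB_r n 0 = 0 := rfl
        rw [e, Complex.ofReal_zero]
        rfl
      | succ k ih =>
        have e : XIB_r n (k + 1) = XIB_r n k ^ n + 1 := rfl
        rw [hs, ih, e]
        push_cast
        rfl
    have hA : ∀ k, AnalyticOnNhd ℂ (xi n k) univ := fun k z _ => (hd k).analyticAt z
    have hev : xi n (m + p) =ᶠ[𝓝 c] xi n m := by
      filter_upwards [ball_mem_nhds c hδ] with x hx using hall x hx
    have heq := AnalyticOnNhd.eq_of_eventuallyEq (hA (m + p)) (hA m) hev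
    have h1 := congrFun heq 1
    rw [hr, hr, Complex.ofReal_inj] at h1
    have h2 := XIB_mono n hn (by omega : m < m + p)
    exact absurd h1 h2.ne'

end NLT
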